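import Pool.Agent.X274.HopfDefs

/-!
# Extensions with group `S₃` generated by a cube root of unity and a cube root: abstract part
-/

set_option autoImplicit false
set_option linter.unusedSectionVars false
set_option linter.unusedSimpArgs false

open scoped TensorProduct

namespace Pool.Agent.X274.Hopf

theorem sum_single {M G : Type} [Field M] [Fintype G] (z : MonoidAlgebra M G) :
    z = ∑ g : G, MonoidAlgebra.single g (z.coeff g) := by
  classical
  apply MonoidAlgebra.ext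
  rw [MonoidAlgebra.coeff_sum]
  ext g
  rw [Finsupp.finsetSum_apply]
  simp only [MonoidAlgebra.coeff_single]
  rw [Finset.sum_eq_single g]
  · simp
  · intro b _ hb
    exact Finsupp.single_eq_of_ne hb.symm
  · simp

variable {R K L : Type} [CommRing R] [Field K] [Field L] [Algebra R K] [Algebra K L] [Algebra R L]
  [IsScalarTower R K L]

/-- `(a₀ + b₀ w) + (a₁ + b₁ w) p + (a₂ + b₂ w) p²` -/
def cb (w p : L) (a₀ b₀ a₁ b₁ a₂ b₂ : K) : L :=
  (algebraMap K L a₀ + algebraMap K L b₀ * w) + (algebraMap K L a₁ + algebraMap K L b₁ * w) * p +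
    (algebraMap K L a₂ + algebraMap K L b₂ * w) * p ^ 2

variable (R K L) in
/-- The situation: `w` is a primitive third root of unity, `p ^ 3 = t`. -/
structure S3 where
  w : L
  p : L
  t : R
  s : L ≃ₐ[K] L
  τ : L ≃ₐ[K] L
  B : Submodule R L
  hw : w ^ 2 + w + 1 = 0
  hp : p ^ 3 = algebraMap R L t
  hp0 : p ≠ 0
  h3 : IsUnit (3 : R)
  ht : ¬ IsUnit t
  hsw : s w = w
  hsp : s p = w * p
  htw : τ w = w ^ 2
  htp : τ p = p
  hspan : ∀ x : L, ∃ a₀ b₀ a₁ b₁ a₂ b₂ : K, x = cb w p a₀ b₀ a₁ b₁ a₂ b₂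
  hinj : Function.Injective (algebraMap R K)
  hB : ∀ x, x ∈ B ↔ ∃ a₀ b₀ a₁ b₁ a₂ b₂ : R, x = cb w p (algebraMap R K a₀) (algebraMap R K b₀)
    (algebraMap R K a₁) (algebraMap R K b₁) (algebraMap R K a₂) (algebraMap R K b₂)

namespace S3

variable (D : S3 R K L)

theorem hw2 : D.w ^ 2 = -1 - D.w := by linear_combination D.hw

theorem hw3 : D.w ^ 3 = 1 := by linear_combination (D.w - 1) * D.hw

include D in
theorem h3L : (3 : L) ≠ 0 := by
  have h := (D.h3.map (algebraMap R L)).ne_zero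
  rwa [map_ofNat] at h

theorem hw1 : D.w ≠ 1 := by
  intro h
  have := D.hw
  rw [h] at this
  apply D.h3L
  linear_combination this

theorem hw0 : D.w ≠ 0 := by
  intro h
  have := D.hw
  rw [h] at this
  simp at this

theorem hwne : D.w ^ 2 ≠ D.w := by
  intro h
  apply D.hw1
  have := D.hw0
  field_simp at h
  exact h

/-- The element `s ^ i * τ ^ j`. -/
def e (x : Fin 3 × Fin 2) : L ≃ₐ[K] L := D.s ^ x.1.val * D.τ ^ x.2.val

theorem e00 : D.e (0, 0) = 1 := by simp [e]
theorem e10 : D.e (1, 0) = D.s := by simp [e]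
theorem e20 : D.e (2, 0) = D.s * D.s := by simp [e, pow_two]
theorem e01 : D.e (0, 1) = D.τ := by simp [e]
theorem e11 : D.e (1, 1) = D.s * D.τ := by simp [e]
theorem e21 : D.e (2, 1) = D.s * D.s * D.τ := by simp [e, pow_two]

theorem e_p (x : Fin 3 × Fin 2) : D.e x D.p = D.w ^ x.1.val * D.p := by
  obtain ⟨i, j⟩ := x
  fin_cases i <;> fin_cases j
  · simp [e00 D]
  · simp [e01 D, D.htp]
  · simp [e10 D, D.hsp]
  · simp [e11 D, D.htp, D.hsp]
  · simp [e20 D, D.hsp, D.hsw]; ring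
  · simp [e21 D, D.hsp, D.hsw, D.htp]; ring

theorem e_w (x : Fin 3 × Fin 2) : D.e x D.w = if x.2 = 0 then D.w else D.w ^ 2 := by
  obtain ⟨i, j⟩ := x
  fin_cases i <;> fin_cases j
  · simp [e00 D]
  · simp [e01 D, D.htw]
  · simp [e10 D, D.hsw]
  · simp [e11 D, D.htw, D.hsw]
  · simp [e20 D, D.hsw]
  · simp [e21 D, D.hsw, D.htw]

theorem e_inj : Function.Injective D.e := by
  rintro ⟨i, j⟩ ⟨i', j'⟩ h
  have h1 : D.w ^ i.val * D.p = D.w ^ i'.val * D.p := by
    rw [← D.e_p (i, j), ← D.e_p (i', j'), h]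
  have h2 : D.w ^ i.val = D.w ^ i'.val := mul_right_cancel₀ D.hp0 h1
  have h3 : (if j = 0 then D.w else D.w ^ 2) = if j' = 0 then D.w else D.w ^ 2 := by
    have := D.e_w (i, j)
    rw [h, D.e_w (i', j')] at this
    exact this.symm
  have hne := D.hwne
  have hw1 := D.hw1
  have hw0 := D.hw0
  have hw21 : D.w ^ 2 ≠ 1 := by
    intro h
    have := D.hw3
    rw [pow_succ, h, one_mul] at this
    exact hw1 this
  have hj : j = j' := by
    fin_cases j <;> fin_cases j'
    · rfl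
    · simp only [Fin.zero_eta, Fin.mk_one, if_true, one_ne_zero, if_false] at h3
      exact absurd h3.symm hne
    · simp only [Fin.zero_eta, Fin.mk_one, if_true, one_ne_zero, if_false] at h3
      exact absurd h3 hne
    · rfl
  have hi : i = i' := by
    fin_cases i <;> fin_cases i'
    · rfl
    · simp at h2; exact absurd h2.symm hw1
    · simp at h2; exact absurd h2.symm hw21
    · simp at h2; exact absurd h2 hw1
    · rfl
    · simp at h2; exact absurd h2.symm hne
    · simp only [Fin.zero_eta, Fin.reduceFinMk, Fin.val_zero, Fin.val_two, pow_zero] at h2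
      exact absurd h2 hw21
    · simp at h2; exact absurd h2 hne
    · rfl
  rw [hi, hj]

/-- The six elements `wⁱ pʲ`. -/
def v (x : Fin 3 × Fin 2) : L := D.w ^ x.2.val * D.p ^ x.1.val

theorem cb_eq_sum (c : Fin 3 × Fin 2 → K) :
    ∑ x, c x • D.v x = cb D.w D.p (c (0, 0)) (c (0, 1)) (c (1, 0)) (c (1, 1)) (c (2, 0))
      (c (2, 1)) := by
  rw [Fintype.sum_prod_type]
  simp only [Fin.sum_univ_three, Fin.sum_univ_two, v, cb, Algebra.smul_def]
  simp
  ring

theorem v_span : (⊤ : Submodule K L) ≤ Submodule.span K (Set.range D.v) := by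
  intro x _
  obtain ⟨a₀, b₀, a₁, b₁, a₂, b₂, rfl⟩ := D.hspan x
  let c : Fin 3 × Fin 2 → K := fun x => ![![a₀, b₀], ![a₁, b₁], ![a₂, b₂]] x.1 x.2
  have h := D.cb_eq_sum c
  simp only [c, Matrix.cons_val] at h
  rw [← h]
  exact Submodule.sum_mem _ fun x _ => Submodule.smul_mem _ _ (Submodule.subset_span ⟨x, rfl⟩)

include D in
theorem finDim : FiniteDimensional K L :=
  ⟨⟨(Set.finite_range D.v).toFinset, by
    rw [Set.Finite.coe_toFinset, top_le_iff.1 D.v_span]⟩⟩

include D in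
theorem finrank_le : Module.finrank K L ≤ 6 := by
  have h := finrank_range_le_card (R := K) D.v
  rw [Set.finrank, top_le_iff.1 D.v_span, finrank_top] at h
  simpa using h

include D in
theorem card_aut : Nat.card (L ≃ₐ[K] L) = 6 ∧ Module.finrank K L = 6 := by
  have := D.finDim
  have h0 := D.finrank_le
  have h1 : Nat.card (L ≃ₐ[K] L) ≤ Module.finrank K L := by
    rw [Nat.card_eq_fintype_card]
    exact AlgEquiv.card_le
  have h2 := Nat.card_le_card_of_injective D.e D.e_inj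
  have h3 : Nat.card (Fin 3 × Fin 2) = 6 := by simp
  omega

include D in
theorem isGalois : IsGalois K L := by
  have := D.finDim
  apply IsGalois.of_card_aut_eq_finrank
  rw [D.card_aut.1, D.card_aut.2]

theorem hG (g : L ≃ₐ[K] L) : ∃ x : Fin 3 × Fin 2, D.s ^ x.1.val * D.τ ^ x.2.val = g := by
  have := D.finDim
  have h : Function.Bijective D.e := by
    rw [Nat.bijective_iff_injective_and_card]
    refine ⟨D.e_inj, ?_⟩
    rw [D.card_aut.1]
    simp
  exact h.2 g

theorem hli (a₀ b₀ a₁ b₁ a₂ b₂ : K) (h : cb D.w D.p a₀ b₀ a₁ b₁ a₂ b₂ = 0) :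
    a₀ = 0 ∧ b₀ = 0 ∧ a₁ = 0 ∧ b₁ = 0 ∧ a₂ = 0 ∧ b₂ = 0 := by
  have := D.finDim
  have hl : LinearIndependent K D.v := by
    apply linearIndependent_of_top_le_span_of_card_eq_finrank D.v_span
    rw [D.card_aut.2]
    simp
  let c : Fin 3 × Fin 2 → K := fun x => ![![a₀, b₀], ![a₁, b₁], ![a₂, b₂]] x.1 x.2
  have h1 := D.cb_eq_sum c
  simp only [c, Matrix.cons_val] at h1
  rw [h] at h1
  have h2 := Fintype.linearIndependent_iff.1 hl _ h1
  exact ⟨h2 (0, 0), h2 (0, 1), h2 (1, 0), h2 (1, 1), h2 (2, 0), h2 (2, 1)⟩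

theorem cb_inj {a₀ b₀ a₁ b₁ a₂ b₂ a₀' b₀' a₁' b₁' a₂' b₂' : K}
    (h : cb D.w D.p a₀ b₀ a₁ b₁ a₂ b₂ = cb D.w D.p a₀' b₀' a₁' b₁' a₂' b₂') :
    a₀ = a₀' ∧ b₀ = b₀' ∧ a₁ = a₁' ∧ b₁ = b₁' ∧ a₂ = a₂' ∧ b₂ = b₂' := by
  have h1 : cb D.w D.p (a₀ - a₀') (b₀ - b₀') (a₁ - a₁') (b₁ - b₁') (a₂ - a₂') (b₂ - b₂') = 0 := by
    unfold cb at h ⊢
    simp only [map_sub]
    linear_combination h
  obtain ⟨h0, h1, h2, h3, h4, h5⟩ := D.hli _ _ _ _ _ _ h1
  exact ⟨sub_eq_zero.1 h0, sub_eq_zero.1 h1, sub_eq_zero.1 h2, sub_eq_zero.1 h3,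
    sub_eq_zero.1 h4, sub_eq_zero.1 h5⟩

theorem cb_mem {a₀ b₀ a₁ b₁ a₂ b₂ : K} (h : cb D.w D.p a₀ b₀ a₁ b₁ a₂ b₂ ∈ D.B) :
    a₀ ∈ (algebraMap R K).range ∧ b₀ ∈ (algebraMap R K).range ∧ a₁ ∈ (algebraMap R K).range ∧
    b₁ ∈ (algebraMap R K).range ∧ a₂ ∈ (algebraMap R K).range ∧ b₂ ∈ (algebraMap R K).range := by
  obtain ⟨c₀, d₀, c₁, d₁, c₂, d₂, h⟩ := (D.hB _).1 h
  obtain ⟨rfl, rfl, rfl, rfl, rfl, rfl⟩ := D.cb_inj h
  exact ⟨⟨_, rfl⟩, ⟨_, rfl⟩, ⟨_, rfl⟩, ⟨_, rfl⟩, ⟨_, rfl⟩, ⟨_, rfl⟩⟩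

theorem e_bij : Function.Bijective D.e := ⟨D.e_inj, D.hG⟩

theorem sum_eq {A : Type} [AddCommMonoid A] {M : Type} [Zero M] (z : (L ≃ₐ[K] L) →₀ M)
    (f : (L ≃ₐ[K] L) → M → A) (hf : ∀ g, f g 0 = 0) :
    z.sum f = f 1 (z 1) + f D.s (z D.s) + f (D.s * D.s) (z (D.s * D.s)) + f D.τ (z D.τ) +
      f (D.s * D.τ) (z (D.s * D.τ)) + f (D.s * D.s * D.τ) (z (D.s * D.s * D.τ)) := by
  have : Finite (L ≃ₐ[K] L) := Finite.of_surjective D.e D.e_bij.2
  have := Fintype.ofFinite (L ≃ₐ[K] L)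
  rw [Finsupp.sum_fintype _ _ hf, ← D.e_bij.sum_comp, Fintype.sum_prod_type]
  simp only [Fin.sum_univ_three, Fin.sum_univ_two, e00, e10, e20, e01, e11, e21]
  abel

theorem act_eq (z : MonoidAlgebra K (L ≃ₐ[K] L)) (x : L) :
    act K L z x = z.coeff 1 • x + z.coeff D.s • D.s x + z.coeff (D.s * D.s) • D.s (D.s x) +
      z.coeff D.τ • D.τ x + z.coeff (D.s * D.τ) • D.s (D.τ x) +
      z.coeff (D.s * D.s * D.τ) • D.s (D.s (D.τ x)) := by
  unfold act
  rw [D.sum_eq z.coeff (fun (g : L ≃ₐ[K] L) (c : K) => c • g x) (fun _ => zero_smul _ _)]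
  rfl

/-- An element of the associated order of `B` in `K[G]` has coefficients in `R`. -/
theorem coeff_mem (z : MonoidAlgebra K (L ≃ₐ[K] L)) (hz : z ∈ assocK R K L D.B)
    (g : L ≃ₐ[K] L) : z.coeff g ∈ (algebraMap R K).range := by
  set z00 := z.coeff 1 with h00
  set z10 := z.coeff D.s with h10
  set z20 := z.coeff (D.s * D.s) with h20
  set z01 := z.coeff D.τ with h01
  set z11 := z.coeff (D.s * D.τ) with h11
  set z21 := z.coeff (D.s * D.s * D.τ) with h21
  have hact : ∀ x, act K L z x = z00 • x + z10 • D.s x + z20 • D.s (D.s x) +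
      z01 • D.τ x + z11 • D.s (D.τ x) + z21 • D.s (D.s (D.τ x)) := D.act_eq z
  have hw := D.hw
  have m1 : act K L z 1 = cb D.w D.p (z00 + z10 + z20 + z01 + z11 + z21) 0 0 0 0 0 := by
    rw [hact]
    simp only [map_one, Algebra.smul_def, mul_one, cb, map_add, map_zero]
    ring
  have mw : act K L z D.w = cb D.w D.p (-(z01 + z11 + z21))
      (z00 + z10 + z20 - (z01 + z11 + z21)) 0 0 0 0 := by
    rw [hact]
    simp only [D.hsw, D.htw, map_pow, Algebra.smul_def, cb, map_add, map_zero, map_neg, map_sub]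
    linear_combination (algebraMap K L z01 + algebraMap K L z11 + algebraMap K L z21) * hw
  have mp : act K L z D.p = cb D.w D.p 0 0 (z00 - z20 + z01 - z21) (z10 - z20 + z11 - z21)
      0 0 := by
    rw [hact]
    simp only [D.hsp, D.htp, D.hsw, D.htw, map_mul, map_pow, Algebra.smul_def, cb, map_add,
      map_zero, map_neg, map_sub]
    linear_combination (algebraMap K L z20 + algebraMap K L z21) * D.p * hw
  have mwp : act K L z (D.w * D.p) = cb D.w D.p 0 0 (z20 - z10 + z11 - z01)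
      (z00 - z10 + z21 - z01) 0 0 := by
    rw [hact]
    simp only [D.hsp, D.htp, D.hsw, D.htw, map_mul, map_pow, Algebra.smul_def, cb, map_add,
      map_zero, map_neg, map_sub]
    linear_combination ((algebraMap K L z10 + algebraMap K L z01) +
      (algebraMap K L z20 + algebraMap K L z11) * (D.w - 1) +
      algebraMap K L z21 * (D.w ^ 2 - D.w)) * D.p * hw
  have mp2 : act K L z (D.p ^ 2) = cb D.w D.p 0 0 0 0 (z00 - z10 + z01 - z11)
      (z20 - z10 + z21 - z11) := by
    rw [hact]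
    simp only [D.hsp, D.htp, D.hsw, D.htw, map_mul, map_pow, Algebra.smul_def, cb, map_add,
      map_zero, map_neg, map_sub]
    linear_combination ((algebraMap K L z10 + algebraMap K L z11) +
      (algebraMap K L z20 + algebraMap K L z21) * (D.w ^ 2 - D.w)) * D.p ^ 2 * hw
  have mwp2 : act K L z (D.w * D.p ^ 2) = cb D.w D.p 0 0 0 0 (z10 - z20 + z21 - z01)
      (z00 - z20 + z11 - z01) := by
    rw [hact]
    simp only [D.hsp, D.htp, D.hsw, D.htw, map_mul, map_pow, Algebra.smul_def, cb, map_add,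
      map_zero, map_neg, map_sub]
    linear_combination (algebraMap K L z10 * (D.w - 1) +
      algebraMap K L z20 * (D.w ^ 3 - D.w ^ 2 + 1) + algebraMap K L z01 +
      algebraMap K L z11 * (D.w ^ 2 - D.w) +
      algebraMap K L z21 * (D.w ^ 4 - D.w ^ 3 + D.w - 1)) * D.p ^ 2 * hw
  have hB : ∀ (a₀ b₀ a₁ b₁ a₂ b₂ : R), cb D.w D.p (algebraMap R K a₀) (algebraMap R K b₀)
    (algebraMap R K a₁) (algebraMap R K b₁) (algebraMap R K a₂) (algebraMap R K b₂) ∈ D.B :=
    fun a₀ b₀ a₁ b₁ a₂ b₂ => (D.hB _).2 ⟨a₀, b₀, a₁, b₁, a₂, b₂, rfl⟩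
  have b1 : (1 : L) ∈ D.B := by have := hB 1 0 0 0 0 0; simpa [cb] using this
  have bw : D.w ∈ D.B := by have := hB 0 1 0 0 0 0; simpa [cb] using this
  have bp : D.p ∈ D.B := by have := hB 0 0 1 0 0 0; simpa [cb] using this
  have bwp : D.w * D.p ∈ D.B := by have := hB 0 0 0 1 0 0; simpa [cb] using this
  have bp2 : D.p ^ 2 ∈ D.B := by have := hB 0 0 0 0 1 0; simpa [cb] using this
  have bwp2 : D.w * D.p ^ 2 ∈ D.B := by have := hB 0 0 0 0 0 1; simpa [cb] using this
  obtain ⟨E1, -, -, -, -, -⟩ := D.cb_mem (m1 ▸ hz _ b1)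
  obtain ⟨E2, E3, -, -, -, -⟩ := D.cb_mem (mw ▸ hz _ bw)
  obtain ⟨-, -, E4, E5, -, -⟩ := D.cb_mem (mp ▸ hz _ bp)
  obtain ⟨-, -, E6, E7, -, -⟩ := D.cb_mem (mwp ▸ hz _ bwp)
  obtain ⟨-, -, -, -, E8, E9⟩ := D.cb_mem (mp2 ▸ hz _ bp2)
  obtain ⟨-, -, -, -, E10, E11⟩ := D.cb_mem (mwp2 ▸ hz _ bwp2)
  obtain ⟨u, hu⟩ := D.h3
  have h3K : (3 : K) * algebraMap R K (↑u⁻¹ : R) = 1 := by
    have : (3 : K) = algebraMap R K (3 : R) := (map_ofNat _ 3).symm
    rw [this, ← map_mul, ← hu, Units.mul_inv, map_one]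
  have third : ∀ x : K, 3 * x ∈ (algebraMap R K).range → x ∈ (algebraMap R K).range := by
    intro x hx
    have h1 := (algebraMap R K).range.mul_mem ⟨(↑u⁻¹ : R), rfl⟩ hx
    have h2 : algebraMap R K (↑u⁻¹ : R) * (3 * x) = x := by linear_combination x * h3K
    rwa [h2] at h1
  have cl : ∀ {x y : K}, x ∈ (algebraMap R K).range → y ∈ (algebraMap R K).range →
    x + y ∈ (algebraMap R K).range := fun hx hy => (algebraMap R K).range.add_mem hx hy
  have cs : ∀ {x y : K}, x ∈ (algebraMap R K).range → y ∈ (algebraMap R K).range →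
    x - y ∈ (algebraMap R K).range := fun hx hy => (algebraMap R K).range.sub_mem hx hy
  have Hx : z01 - z11 ∈ (algebraMap R K).range := by
    apply third
    have := cs (cs E8 E11) E6
    convert this using 1
    ring
  have Hu : z00 - z10 ∈ (algebraMap R K).range := by
    have := cs E8 Hx
    convert this using 1
    ring
  have Hv : z00 - z20 ∈ (algebraMap R K).range := by
    have := cl E11 Hx
    convert this using 1
    ring
  have Hy : z01 - z21 ∈ (algebraMap R K).range := by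
    have := cs E4 Hv
    convert this using 1
    ring
  have HP : z00 + z10 + z20 ∈ (algebraMap R K).range := by
    have := cs E3 E2
    convert this using 1
    ring
  have HQ : z01 + z11 + z21 ∈ (algebraMap R K).range := by
    have := cs E1 HP
    convert this using 1
    ring
  have H00 : z00 ∈ (algebraMap R K).range := by
    apply third
    have := cl (cl HP Hu) Hv
    convert this using 1
    ring
  have H01 : z01 ∈ (algebraMap R K).range := by
    apply third
    have := cl (cl HQ Hx) Hy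
    convert this using 1
    ring
  have H10 : z10 ∈ (algebraMap R K).range := by
    have := cs H00 Hu
    convert this using 1
    ring
  have H20 : z20 ∈ (algebraMap R K).range := by
    have := cs H00 Hv
    convert this using 1
    ring
  have H11 : z11 ∈ (algebraMap R K).range := by
    have := cs H01 Hx
    convert this using 1
    ring
  have H21 : z21 ∈ (algebraMap R K).range := by
    have := cs H01 Hy
    convert this using 1
    ring
  obtain ⟨⟨i, j⟩, rfl⟩ := D.hG g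
  change z.coeff (D.e (i, j)) ∈ _
  fin_cases i <;> fin_cases j
  · change z.coeff (D.e (0, 0)) ∈ _
    rw [e00]; exact H00
  · change z.coeff (D.e (0, 1)) ∈ _
    rw [e01]; exact H01
  · change z.coeff (D.e (1, 0)) ∈ _
    rw [e10]; exact H10
  · change z.coeff (D.e (1, 1)) ∈ _
    rw [e11]; exact H11
  · change z.coeff (D.e (2, 0)) ∈ _
    rw [e20]; exact H20
  · change z.coeff (D.e (2, 1)) ∈ _
    rw [e21]; exact H21

theorem ext_of (g g' : L ≃ₐ[K] L) (h1 : g D.w = g' D.w) (h2 : g D.p = g' D.p) : g = g' := by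
  obtain ⟨x, rfl⟩ := D.hG g
  obtain ⟨y, rfl⟩ := D.hG g'
  change D.e x = D.e y
  change D.e x D.w = D.e y D.w at h1
  change D.e x D.p = D.e y D.p at h2
  rw [D.e_p, D.e_p] at h2
  rw [D.e_w, D.e_w] at h1
  have h2' := mul_right_cancel₀ D.hp0 h2
  have hne := D.hwne
  have hw1 := D.hw1
  have hw21 : D.w ^ 2 ≠ 1 := by
    intro h
    have := D.hw3
    rw [pow_succ, h, one_mul] at this
    exact hw1 this
  obtain ⟨i, j⟩ := x
  obtain ⟨i', j'⟩ := y
  simp only at h1 h2'
  have hj : j = j' := by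
    fin_cases j <;> fin_cases j'
    · rfl
    · simp only [Fin.zero_eta, Fin.mk_one, if_true, one_ne_zero, if_false] at h1
      exact absurd h1.symm hne
    · simp only [Fin.zero_eta, Fin.mk_one, if_true, one_ne_zero, if_false] at h1
      exact absurd h1 hne
    · rfl
  have hi : i = i' := by
    fin_cases i <;> fin_cases i'
    · rfl
    · simp at h2'; exact absurd h2'.symm hw1
    · simp at h2'; exact absurd h2'.symm hw21
    · simp at h2'; exact absurd h2' hw1
    · rfl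
    · simp at h2'; exact absurd h2'.symm hne
    · simp only [Fin.zero_eta, Fin.reduceFinMk, Fin.val_zero, Fin.val_two, pow_zero] at h2'
      exact absurd h2' hw21
    · simp at h2'; exact absurd h2' hne
    · rfl
  rw [hi, hj]

include D in
theorem finite_G : Finite (L ≃ₐ[K] L) := Finite.of_surjective D.e D.e_bij.2

/-! ### The classical structure -/

theorem s_cb (a₀ b₀ a₁ b₁ a₂ b₂ : K) : D.s (cb D.w D.p a₀ b₀ a₁ b₁ a₂ b₂) =
    cb D.w D.p a₀ b₀ (-b₁) (a₁ - b₁) (b₂ - a₂) (-a₂) := by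
  unfold cb
  simp only [map_add, map_mul, map_pow, D.hsw, D.hsp, AlgEquiv.commutes, map_neg, map_sub]
  linear_combination (algebraMap K L b₁ * D.p + algebraMap K L a₂ * D.p ^ 2 +
    algebraMap K L b₂ * (D.w - 1) * D.p ^ 2) * D.hw

theorem τ_cb (a₀ b₀ a₁ b₁ a₂ b₂ : K) : D.τ (cb D.w D.p a₀ b₀ a₁ b₁ a₂ b₂) =
    cb D.w D.p (a₀ - b₀) (-b₀) (a₁ - b₁) (-b₁) (a₂ - b₂) (-b₂) := by
  unfold cb
  simp only [map_add, map_mul, map_pow, D.htw, D.htp, AlgEquiv.commutes, map_neg, map_sub]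
  linear_combination (algebraMap K L b₀ + algebraMap K L b₁ * D.p +
    algebraMap K L b₂ * D.p ^ 2) * D.hw

theorem s_mem (x : L) (hx : x ∈ D.B) : D.s x ∈ D.B := by
  obtain ⟨a₀, b₀, a₁, b₁, a₂, b₂, rfl⟩ := (D.hB _).1 hx
  rw [D.s_cb]
  exact (D.hB _).2 ⟨a₀, b₀, -b₁, a₁ - b₁, b₂ - a₂, -a₂, by simp only [map_neg, map_sub]⟩

theorem τ_mem (x : L) (hx : x ∈ D.B) : D.τ x ∈ D.B := by
  obtain ⟨a₀, b₀, a₁, b₁, a₂, b₂, rfl⟩ := (D.hB _).1 hx
  rw [D.τ_cb]
  exact (D.hB _).2 ⟨a₀ - b₀, -b₀, a₁ - b₁, -b₁, a₂ - b₂, -b₂, by simp only [map_neg, map_sub]⟩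

theorem g_mem (g : L ≃ₐ[K] L) (x : L) (hx : x ∈ D.B) : g x ∈ D.B := by
  obtain ⟨⟨i, j⟩, rfl⟩ := D.hG g
  have h1 : (D.τ ^ j.val) x ∈ D.B := by
    fin_cases j
    · simpa using hx
    · simpa using D.τ_mem x hx
  have h2 : ∀ y ∈ D.B, (D.s ^ i.val) y ∈ D.B := by
    intro y hy
    fin_cases i
    · simpa using hy
    · simpa using D.s_mem y hy
    · simpa [pow_two] using D.s_mem _ (D.s_mem y hy)
  exact h2 _ h1

theorem assocK_eq : assocK R K L D.B =
    Submodule.span R (Set.range fun g : L ≃ₐ[K] L => MonoidAlgebra.single g (1 : K)) := by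
  have := D.finite_G
  have := Fintype.ofFinite (L ≃ₐ[K] L)
  apply le_antisymm
  · intro z hz
    have h := D.coeff_mem z hz
    choose r hr using h
    have hz' : z = ∑ g : L ≃ₐ[K] L, r g • MonoidAlgebra.single g (1 : K) := by
      conv_lhs => rw [sum_single z]
      refine Finset.sum_congr rfl fun g _ => ?_
      rw [← hr g, MonoidAlgebra.smul_single, Algebra.smul_def, mul_one]
    rw [hz']
    exact Submodule.sum_mem _ fun g _ => Submodule.smul_mem _ _ (Submodule.subset_span ⟨g, rfl⟩)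
  · rw [Submodule.span_le]
    rintro _ ⟨g, rfl⟩ x hx
    have : act K L (MonoidAlgebra.single g (1 : K)) x = g x := by
      unfold act
      rw [MonoidAlgebra.coeff_single, Finsupp.sum_single_index (h := fun (g : L ≃ₐ[K] L) (c : K) =>
        c • g x) (zero_smul _ _), one_smul]
    rw [this]
    exact D.g_mem g x hx

theorem classical : IsHopfOrder R K (M := K) (G := L ≃ₐ[K] L) ⊤ (assocK R K L D.B) := by
  have := D.finite_G
  rw [D.assocK_eq]
  refine ⟨fun _ _ => Submodule.mem_top, ?_, ?_, ?_, ?_, ?_, ?_, ?_⟩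
  · exact Submodule.subset_span ⟨1, rfl⟩
  · intro a ha b hb
    have h := Submodule.mul_mem_mul ha hb
    rw [Submodule.span_mul_span] at h
    refine Submodule.span_mono ?_ h
    rintro _ ⟨_, ⟨g, rfl⟩, _, ⟨g', rfl⟩, rfl⟩
    refine ⟨g * g', ?_⟩
    simp [MonoidAlgebra.single_mul_single]
  · exact Submodule.fg_span (Set.finite_range _)
  · rw [eq_top_iff]
    have := Fintype.ofFinite (L ≃ₐ[K] L)
    intro z _
    have h1 : z = ∑ g : L ≃ₐ[K] L, z.coeff g • MonoidAlgebra.single g (1 : K) := by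
      conv_lhs => rw [sum_single z]
      refine Finset.sum_congr rfl fun g _ => ?_
      rw [MonoidAlgebra.smul_single, smul_eq_mul, mul_one]
    rw [h1]
    exact Submodule.sum_mem _ fun g _ => Submodule.smul_mem _ _
      (Submodule.subset_span (Submodule.subset_span ⟨g, rfl⟩))
  · intro a ha
    induction ha using Submodule.span_induction with
    | mem x hx =>
      obtain ⟨g, rfl⟩ := hx
      refine Submodule.subset_span ⟨MonoidAlgebra.single g 1, Submodule.subset_span ⟨g, rfl⟩,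
        MonoidAlgebra.single g 1, Submodule.subset_span ⟨g, rfl⟩, ?_⟩
      simp
    | zero => rw [map_zero]; exact Submodule.zero_mem _
    | add x y _ _ hx hy => rw [map_add]; exact Submodule.add_mem _ hx hy
    | smul r x _ hx =>
      have : r • x = (algebraMap R K r) • x := (algebraMap_smul K r x).symm
      rw [this, map_smul, algebraMap_smul]
      exact Submodule.smul_mem _ _ hx
  · intro a ha
    induction ha using Submodule.span_induction with
    | mem x hx =>
      obtain ⟨g, rfl⟩ := hx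
      exact ⟨1, by simp⟩
    | zero => exact ⟨0, by simp⟩
    | add x y _ _ hx hy => rw [map_add]; exact (algebraMap R K).range.add_mem hx hy
    | smul r x _ hx =>
      have : r • x = (algebraMap R K r) • x := (algebraMap_smul K r x).symm
      rw [this, map_smul, smul_eq_mul]
      exact (algebraMap R K).range.mul_mem ⟨r, rfl⟩ hx
  · intro a ha
    induction ha using Submodule.span_induction with
    | mem x hx =>
      obtain ⟨g, rfl⟩ := hx
      refine Submodule.subset_span ⟨g⁻¹, ?_⟩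
      simp
    | zero => rw [map_zero]; exact Submodule.zero_mem _
    | add x y _ _ hx hy => rw [map_add]; exact Submodule.add_mem _ hx hy
    | smul r x _ hx =>
      have : r • x = (algebraMap R K r) • x := (algebraMap_smul K r x).symm
      rw [this, map_smul, algebraMap_smul]
      exact Submodule.smul_mem _ _ hx

end S3

end Pool.Agent.X274.Hopf
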