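import Mathlib

/-!
# Associated orders of a fractional ideal in the classical and in the canonical nonclassical
Hopf-Galois structure
-/

set_option autoImplicit false

open scoped TensorProduct

namespace Pool.Agent.X274.Hopf

/-- The `R`-span of the `x ⊗ y` with `x, y ∈ A`, that is, the image of `A ⊗ A`. -/
noncomputable def tensorSpan {R M G : Type} [CommRing R] [Field M] [Algebra R M]
    (A : Submodule R (MonoidAlgebra M G)) :
    Submodule R (MonoidAlgebra M G ⊗[M] MonoidAlgebra M G) :=
  Submodule.span R {z | ∃ x ∈ A, ∃ y ∈ A, z = x ⊗ₜ[M] y}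

/-- `A` is an `R`-Hopf order in the `K`-Hopf algebra `H`. Here `H` is a `K`-subspace of the group
algebra `M[G]` with its usual Hopf structure over the field `M` (which contains `K`), and the Hopf
structure of `H` is the restriction of the one of `M[G]`. The condition on the comultiplication
says that `Δ(a)` is in the `R`-span of the `x ⊗ y` with `x, y ∈ A`, that is, in the image of
`A ⊗ A`. -/
structure IsHopfOrder (R K : Type) [CommRing R] [Field K] {M G : Type} [Field M] [Algebra R M]
    [Algebra K M] [Group G] (H : Submodule K (MonoidAlgebra M G))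
    (A : Submodule R (MonoidAlgebra M G)) : Prop where
  subset : ∀ a ∈ A, a ∈ H
  one_mem : (1 : MonoidAlgebra M G) ∈ A
  mul_mem : ∀ a ∈ A, ∀ b ∈ A, a * b ∈ A
  fg : A.FG
  span_eq : Submodule.span K (A : Set (MonoidAlgebra M G)) = H
  comul_mem : ∀ a ∈ A, Coalgebra.comul (R := M) a ∈ tensorSpan A
  counit_mem : ∀ a ∈ A, Coalgebra.counit (R := M) a ∈ (algebraMap R M).range
  antipode_mem : ∀ a ∈ A, HopfAlgebra.antipode M a ∈ A

section

variable (R K L : Type) [CommRing R] [Field K] [Field L] [Algebra R K] [Algebra K L] [Algebra R L]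
  [IsScalarTower R K L]

/-- The usual action of the element `z` of `K[G]`, `G = Gal(L/K)`, on `L`: the sum of the
`z_g g(x)`. -/
noncomputable def act (z : MonoidAlgebra K (L ≃ₐ[K] L)) (x : L) : L :=
  z.coeff.sum fun g c => c • g x

/-- The associated order of `B` in `K[G]`: the `z` with `z(B) ⊆ B`. -/
def assocK (B : Submodule R L) : Submodule R (MonoidAlgebra K (L ≃ₐ[K] L)) where
  carrier := {z | ∀ x ∈ B, act K L z x ∈ B}
  add_mem' := by
    intro z z' hz hz' x hx
    have : act K L (z + z') x = act K L z x + act K L z' x := by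
      unfold act
      rw [MonoidAlgebra.coeff_add]
      exact Finsupp.sum_add_index' (h := fun (g : L ≃ₐ[K] L) (c : K) => c • g x)
        (fun _ => zero_smul _ _) (fun _ _ _ => add_smul _ _ _)
    rw [this]
    exact B.add_mem (hz x hx) (hz' x hx)
  zero_mem' := by
    intro x _
    have : act K L 0 x = 0 := by
      unfold act
      rw [MonoidAlgebra.coeff_zero, Finsupp.sum_zero_index]
    rw [this]
    exact B.zero_mem
  smul_mem' := by
    intro r z hz x hx
    have : act K L (r • z) x = r • act K L z x := by
      unfold act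
      rw [MonoidAlgebra.coeff_smul, Finsupp.sum_smul_index' (h := fun (g : L ≃ₐ[K] L) (c : K) =>
        c • g x) (fun _ => zero_smul _ _), Finsupp.smul_sum]
      refine Finsupp.sum_congr fun g _ => ?_
      rw [smul_assoc]
    rw [this]
    exact B.smul_mem r (hz x hx)

/-- `H_λ = L[λ(G)]^G`, where we write `g` for the element `λ(g)` of `λ(G)`: the elements `z` of
`L[G]` which are invariant under the action of `G` by the Galois action on the coefficients and
by conjugation `h ↦ g h g⁻¹` on the group elements. -/
def Hlam : Submodule K (MonoidAlgebra L (L ≃ₐ[K] L)) where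
  carrier := {z | ∀ g h : L ≃ₐ[K] L, z.coeff (g * h * g⁻¹) = g (z.coeff h)}
  add_mem' := by
    intro z z' hz hz' g h
    rw [MonoidAlgebra.coeff_add, Finsupp.add_apply, Finsupp.add_apply, map_add, hz, hz']
  zero_mem' := by
    intro g h
    rw [MonoidAlgebra.coeff_zero, Finsupp.zero_apply, Finsupp.zero_apply, map_zero]
  smul_mem' := by
    intro c z hz g h
    rw [MonoidAlgebra.coeff_smul, Finsupp.smul_apply, Finsupp.smul_apply, hz]
    exact (map_smul g c _).symm

/-- The action of the element `z` of `L[λ(G)]` on `L`: the sum of the `z_η η⁻¹(1_G)(x)`; for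
`η = λ(g)` we have `η⁻¹(1_G) = g⁻¹`. -/
noncomputable def actLam (z : MonoidAlgebra L (L ≃ₐ[K] L)) (x : L) : L :=
  z.coeff.sum fun g c => c * g⁻¹ x

/-- The associated order of `B` in `H_λ`. -/
def assocLam (B : Submodule R L) : Submodule R (MonoidAlgebra L (L ≃ₐ[K] L)) where
  carrier := {z | z ∈ Hlam K L ∧ ∀ x ∈ B, actLam K L z x ∈ B}
  add_mem' := by
    rintro z z' ⟨h1, hz⟩ ⟨h2, hz'⟩
    refine ⟨Submodule.add_mem _ h1 h2, fun x hx => ?_⟩
    have : actLam K L (z + z') x = actLam K L z x + actLam K L z' x := by
      unfold actLam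
      rw [MonoidAlgebra.coeff_add]
      exact Finsupp.sum_add_index' (h := fun (g : L ≃ₐ[K] L) (c : L) => c * g⁻¹ x)
        (fun _ => zero_mul _) (fun _ _ _ => add_mul _ _ _)
    rw [this]
    exact B.add_mem (hz x hx) (hz' x hx)
  zero_mem' := by
    refine ⟨Submodule.zero_mem _, fun x _ => ?_⟩
    have : actLam K L 0 x = 0 := by
      unfold actLam
      rw [MonoidAlgebra.coeff_zero, Finsupp.sum_zero_index]
    rw [this]
    exact B.zero_mem
  smul_mem' := by
    rintro r z ⟨h1, hz⟩
    constructor
    · have : r • z = (algebraMap R K r) • z := by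
        ext g
        rw [MonoidAlgebra.coeff_smul, MonoidAlgebra.coeff_smul, Finsupp.smul_apply,
          Finsupp.smul_apply, algebraMap_smul]
      rw [this]
      exact Submodule.smul_mem _ _ h1
    · intro x hx
      have : actLam K L (r • z) x = r • actLam K L z x := by
        unfold actLam
        rw [MonoidAlgebra.coeff_smul, Finsupp.sum_smul_index' (h := fun (g : L ≃ₐ[K] L) (c : L) =>
          c * g⁻¹ x) (fun _ => zero_mul _), Finsupp.smul_sum]
        refine Finsupp.sum_congr fun g _ => ?_
        rw [smul_mul_assoc]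
      rw [this]
      exact B.smul_mem r (hz x hx)

/-- The integral closure of `R` in `L`. -/
def OL : Submodule R L := Subalgebra.toSubmodule (integralClosure R L)

/-- The associated order of `O_L` in `K[G]` is a Hopf order in `K[G]`. -/
def ClassicalHopf : Prop :=
  IsHopfOrder R K (M := K) (G := L ≃ₐ[K] L) ⊤ (assocK R K L (OL R L))

/-- The associated order of `O_L` in `H_λ` is a Hopf order in `H_λ`. -/
def NonclassicalHopf : Prop :=
  IsHopfOrder R K (Hlam K L) (assocLam R K L (OL R L))

/-- Some element of the associated order `A` of `O_L` in `H_λ` has a comultiplication outside the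
image of `A ⊗ A`. -/
def ComulFails : Prop :=
  ∃ a ∈ assocLam R K L (OL R L), Coalgebra.comul (R := L) a ∉ tensorSpan (assocLam R K L (OL R L))

end

end Pool.Agent.X274.Hopf
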