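import Pool.Agent.X274.HopfNeg

/-!
# The extension `𝔽_{q²}(X) / 𝔽_q(X³)` for `q ≡ 2 mod 3`
-/

set_option autoImplicit false
set_option linter.unusedSectionVars false
set_option linter.unusedSimpArgs false

open scoped TensorProduct Polynomial

namespace Pool.Agent.X274.Hopf

open Polynomial

/-- The field `E(X)`. -/
def LL (_ E : Type) [Field E] : Type := FractionRing E[X]

section base

variable (F E : Type) [Field E]

noncomputable instance : Field (LL F E) := inferInstanceAs (Field (FractionRing E[X]))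

noncomputable instance : Algebra E[X] (LL F E) :=
  inferInstanceAs (Algebra E[X] (FractionRing E[X]))

instance : IsFractionRing E[X] (LL F E) :=
  inferInstanceAs (IsFractionRing E[X] (FractionRing E[X]))

/-- The automorphism of `E(X)` induced by an automorphism of `E[X]`. -/
noncomputable def lift (f : E[X] ≃+* E[X]) : LL F E ≃+* LL F E :=
  IsFractionRing.ringEquivOfRingEquiv f

theorem lift_algebraMap (f : E[X] ≃+* E[X]) (x : E[X]) :
    lift F E f (algebraMap E[X] (LL F E) x) = algebraMap E[X] (LL F E) (f x) :=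
  IsFractionRing.ringEquivOfRingEquiv_algebraMap f x

end base

/-- The data over the constant field. -/
structure Cst (F E : Type) [Field F] [Field E] [Algebra F E] where
  ω : E
  φ : E ≃ₐ[F] E
  hω : ω ^ 2 + ω + 1 = 0
  hφ : φ ω = ω ^ 2
  h3 : (3 : F) ≠ 0
  hE : ∀ c : E, ∃ a b : F, c = algebraMap F E a + algebraMap F E b * ω

section

variable (F E : Type) [Field F] [Field E] [Algebra F E]

/-- The embedding `F[X] → E[X]` with `X ↦ X³`. -/
noncomputable def ψ : F[X] →+* E[X] :=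
  (expand E 3 : E[X] →ₐ[E] E[X]).toRingHom.comp (mapRingHom (algebraMap F E))

theorem ψ_C (a : F) : ψ F E (C a) = C (algebraMap F E a) := by simp [ψ]

theorem ψ_X : ψ F E X = X ^ 3 := by simp [ψ]

theorem ψ_inj : Function.Injective (ψ F E) := by
  intro a b h
  simp only [ψ, RingHom.comp_apply, coe_mapRingHom, AlgHom.toRingHom_eq_coe,
    RingHom.coe_coe] at h
  exact Polynomial.map_injective _ (algebraMap F E).injective (expand_injective (by norm_num) h)

theorem ψ_monomial (n : ℕ) (a : F) :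
    ψ F E (monomial n a) = C (algebraMap F E a) * (X ^ 3) ^ n := by
  rw [← C_mul_X_pow_eq_monomial, map_mul, map_pow, ψ_C, ψ_X]

/-- The embedding `F[X] → E(X)` with `X ↦ X³`. -/
noncomputable def ι : F[X] →+* LL F E := (algebraMap E[X] (LL F E)).comp (ψ F E)

theorem ι_inj : Function.Injective (ι F E) :=
  (IsFractionRing.injective E[X] (LL F E)).comp (ψ_inj F E)

/-- The algebra structure of `E(X)` over `F[X]`. -/
@[instance_reducible]
noncomputable def algR : Algebra F[X] (LL F E) := (ι F E).toAlgebra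

/-- The algebra structure of `E(X)` over `F(X)`. -/
@[instance_reducible]
noncomputable def algK : Algebra (RatFunc F) (LL F E) :=
  (IsFractionRing.lift (K := RatFunc F) (ι_inj F E)).toAlgebra

attribute [local instance] algR algK

theorem algR_eq (a : F[X]) :
    algebraMap F[X] (LL F E) a = algebraMap E[X] (LL F E) (ψ F E a) := rfl

instance tower : @IsScalarTower F[X] (RatFunc F) (LL F E) _ (algK F E).toSMul (algR F E).toSMul :=
  IsScalarTower.of_algebraMap_eq (R := F[X]) (S := RatFunc F) (A := LL F E) (fun x =>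
    (IsFractionRing.lift_algebraMap (K := RatFunc F) (ι_inj F E) x).symm)

variable {F E} (Q : Cst F E)

theorem decomp (f : E[X]) : ∃ a₀ b₀ a₁ b₁ a₂ b₂ : F[X],
    f = (ψ F E a₀ + ψ F E b₀ * C Q.ω) + (ψ F E a₁ + ψ F E b₁ * C Q.ω) * X +
      (ψ F E a₂ + ψ F E b₂ * C Q.ω) * X ^ 2 := by
  induction f using Polynomial.induction_on' with
  | add p q hp hq =>
    obtain ⟨a₀, b₀, a₁, b₁, a₂, b₂, h⟩ := hp
    obtain ⟨c₀, d₀, c₁, d₁, c₂, d₂, h'⟩ := hq
    refine ⟨a₀ + c₀, b₀ + d₀, a₁ + c₁, b₁ + d₁, a₂ + c₂, b₂ + d₂, ?_⟩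
    rw [h, h']
    simp only [map_add]
    ring
  | monomial n c =>
    obtain ⟨u, v, rfl⟩ := Q.hE c
    obtain ⟨k, r, hr, rfl⟩ : ∃ k r : ℕ, r < 3 ∧ n = 3 * k + r :=
      ⟨n / 3, n % 3, Nat.mod_lt _ (by norm_num), (Nat.div_add_mod n 3).symm⟩
    interval_cases r
    · refine ⟨monomial k u, monomial k v, 0, 0, 0, 0, ?_⟩
      rw [← C_mul_X_pow_eq_monomial]
      simp only [ψ_monomial, map_zero, map_add, map_mul]
      ring
    · refine ⟨0, 0, monomial k u, monomial k v, 0, 0, ?_⟩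
      rw [← C_mul_X_pow_eq_monomial]
      simp only [ψ_monomial, map_zero, map_add, map_mul]
      ring
    · refine ⟨0, 0, 0, 0, monomial k u, monomial k v, ?_⟩
      rw [← C_mul_X_pow_eq_monomial]
      simp only [ψ_monomial, map_zero, map_add, map_mul]
      ring

namespace Cst

theorem hω3 : Q.ω ^ 3 = 1 := by linear_combination (Q.ω - 1) * Q.hω

/-- `w` -/
noncomputable def w : LL F E := algebraMap E[X] (LL F E) (C Q.ω)

/-- `p` -/
noncomputable def p (_ : Cst F E) : LL F E := algebraMap E[X] (LL F E) X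

/-- `X ↦ ω X` on `E[X]` -/
noncomputable def sE : E[X] ≃+* E[X] :=
  RingEquiv.ofRingHom (aeval (R := E) (C Q.ω * X : E[X])).toRingHom
    (aeval (R := E) (C (Q.ω ^ 2) * X : E[X])).toRingHom
    (by
      apply Polynomial.ringHom_ext
      · intro a; simp
      · simp only [AlgHom.toRingHom_eq_coe, RingHom.comp_apply, RingHom.coe_coe, aeval_X,
          RingHom.id_apply, map_mul, aeval_C, algebraMap_eq]
        rw [← mul_assoc, ← C_mul]
        have : Q.ω ^ 2 * Q.ω = 1 := by linear_combination Q.hω3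
        rw [this, C_1, one_mul])
    (by
      apply Polynomial.ringHom_ext
      · intro a; simp
      · simp only [AlgHom.toRingHom_eq_coe, RingHom.comp_apply, RingHom.coe_coe, aeval_X,
          RingHom.id_apply, map_mul, aeval_C, algebraMap_eq]
        rw [← mul_assoc, ← C_mul]
        have : Q.ω * Q.ω ^ 2 = 1 := by linear_combination Q.hω3
        rw [this, C_1, one_mul])

theorem sE_apply (f : E[X]) : Q.sE f = aeval (R := E) (C Q.ω * X : E[X]) f := rfl

theorem sE_C (a : E) : Q.sE (C a) = C a := by rw [sE_apply, aeval_C, algebraMap_eq]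

theorem sE_X : Q.sE X = C Q.ω * X := by rw [sE_apply, aeval_X]

/-- Frobenius on the coefficients -/
noncomputable def τE : E[X] ≃+* E[X] := mapEquiv Q.φ.toRingEquiv

theorem τE_C (a : E) : Q.τE (C a) = C (Q.φ a) := by simp [τE]

theorem τE_X : Q.τE X = X := by simp [τE]

theorem sE_ψ (f : F[X]) : Q.sE (ψ F E f) = ψ F E f := by
  have : (Q.sE : E[X] →+* E[X]).comp (ψ F E) = ψ F E := by
    apply Polynomial.ringHom_ext
    · intro a
      simp only [RingHom.comp_apply, ψ_C, RingHom.coe_coe, sE_C]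
    · simp only [RingHom.comp_apply, ψ_X, RingHom.coe_coe, map_pow, sE_X]
      rw [mul_pow, ← C_pow, Q.hω3, C_1, one_mul]
  exact congrArg (fun g : F[X] →+* E[X] => g f) this

theorem τE_ψ (f : F[X]) : Q.τE (ψ F E f) = ψ F E f := by
  have : (Q.τE : E[X] →+* E[X]).comp (ψ F E) = ψ F E := by
    apply Polynomial.ringHom_ext
    · intro a
      simp only [RingHom.comp_apply, ψ_C, RingHom.coe_coe, τE_C, AlgEquiv.commutes]
    · simp only [RingHom.comp_apply, ψ_X, RingHom.coe_coe, map_pow, τE_X]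
  exact congrArg (fun g : F[X] →+* E[X] => g f) this

theorem commutes_of (f : E[X] ≃+* E[X]) (hf : ∀ a : F[X], f (ψ F E a) = ψ F E a)
    (x : RatFunc F) : lift F E f (algebraMap (RatFunc F) (LL F E) x) =
      algebraMap (RatFunc F) (LL F E) x := by
  have : ((lift F E f : LL F E ≃+* LL F E) : LL F E →+* LL F E).comp (algebraMap (RatFunc F) (LL F E)) =
      algebraMap (RatFunc F) (LL F E) := by
    apply IsLocalization.ringHom_ext (nonZeroDivisors F[X])
    refine RingHom.ext fun a => ?_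
    simp only [RingHom.comp_apply, RingHom.coe_coe]
    rw [← IsScalarTower.algebraMap_apply F[X] (RatFunc F) (LL F E), algR_eq, lift_algebraMap, hf]
  exact congrArg (fun g : RatFunc F →+* LL F E => g x) this

/-- `s` -/
noncomputable def s : LL F E ≃ₐ[RatFunc F] LL F E :=
  AlgEquiv.ofRingEquiv (f := lift F E Q.sE) (commutes_of _ Q.sE_ψ)

/-- `τ` -/
noncomputable def τ : LL F E ≃ₐ[RatFunc F] LL F E :=
  AlgEquiv.ofRingEquiv (f := lift F E Q.τE) (commutes_of _ Q.τE_ψ)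

theorem s_apply (f : E[X]) : Q.s (algebraMap E[X] (LL F E) f) = algebraMap E[X] (LL F E) (Q.sE f) :=
  lift_algebraMap F E Q.sE f

theorem τ_apply (f : E[X]) : Q.τ (algebraMap E[X] (LL F E) f) = algebraMap E[X] (LL F E) (Q.τE f) :=
  lift_algebraMap F E Q.τE f

theorem hw : Q.w ^ 2 + Q.w + 1 = 0 := by
  unfold w
  rw [← map_pow, ← map_add, ← map_one (algebraMap E[X] (LL F E)), ← map_add, ← C_pow, ← C_add,
    ← C_1, ← C_add, Q.hω, C_0, map_zero]

theorem hp : Q.p ^ 3 = algebraMap F[X] (LL F E) X := by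
  rw [algR_eq, ψ_X, map_pow]
  rfl

/-- an element of `E[X]` in terms of the basis -/
theorem alg_eq (f : E[X]) : ∃ a₀ b₀ a₁ b₁ a₂ b₂ : F[X], algebraMap E[X] (LL F E) f =
    cb Q.w Q.p (algebraMap F[X] (RatFunc F) a₀) (algebraMap F[X] (RatFunc F) b₀)
      (algebraMap F[X] (RatFunc F) a₁) (algebraMap F[X] (RatFunc F) b₁)
      (algebraMap F[X] (RatFunc F) a₂) (algebraMap F[X] (RatFunc F) b₂) := by
  obtain ⟨a₀, b₀, a₁, b₁, a₂, b₂, h⟩ := decomp Q f
  refine ⟨a₀, b₀, a₁, b₁, a₂, b₂, ?_⟩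
  unfold cb
  simp only [← IsScalarTower.algebraMap_apply F[X] (RatFunc F) (LL F E), algR_eq]
  unfold w p
  rw [h]
  simp only [map_add, map_mul, map_pow]

theorem cb_alg (a₀ b₀ a₁ b₁ a₂ b₂ : F[X]) : ∃ f : E[X],
    cb Q.w Q.p (algebraMap F[X] (RatFunc F) a₀) (algebraMap F[X] (RatFunc F) b₀)
      (algebraMap F[X] (RatFunc F) a₁) (algebraMap F[X] (RatFunc F) b₁)
      (algebraMap F[X] (RatFunc F) a₂) (algebraMap F[X] (RatFunc F) b₂) =
      algebraMap E[X] (LL F E) f := by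
  refine ⟨(ψ F E a₀ + ψ F E b₀ * C Q.ω) + (ψ F E a₁ + ψ F E b₁ * C Q.ω) * X +
      (ψ F E a₂ + ψ F E b₂ * C Q.ω) * X ^ 2, ?_⟩
  unfold cb
  simp only [← IsScalarTower.algebraMap_apply F[X] (RatFunc F) (LL F E), algR_eq]
  unfold w p
  simp only [map_add, map_mul, map_pow]

theorem w_int : IsIntegral F[X] Q.w := by
  refine ⟨X ^ 2 + X + 1, ?_, ?_⟩
  · monicity!
  · simp only [eval₂_add, eval₂_pow, eval₂_X, eval₂_one]
    exact Q.hw

theorem p_int : IsIntegral F[X] Q.p := by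
  refine ⟨X ^ 3 - C X, ?_, ?_⟩
  · monicity!
  · simp only [eval₂_sub, eval₂_pow, eval₂_X, eval₂_C]
    rw [Q.hp, sub_self]

include Q in
theorem alg_int (f : E[X]) : IsIntegral F[X] (algebraMap E[X] (LL F E) f) := by
  obtain ⟨a₀, b₀, a₁, b₁, a₂, b₂, h⟩ := Q.alg_eq f
  rw [h]
  unfold cb
  simp only [← IsScalarTower.algebraMap_apply F[X] (RatFunc F) (LL F E)]
  have hR : ∀ a : F[X], IsIntegral F[X] (algebraMap F[X] (LL F E) a) := fun a => isIntegral_algebraMap
  exact (((hR _).add ((hR _).mul Q.w_int)).add (((hR _).add ((hR _).mul Q.w_int)).mul Q.p_int)).add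
    (((hR _).add ((hR _).mul Q.w_int)).mul (Q.p_int.pow 2))

include Q in
theorem int_iff (x : LL F E) : IsIntegral F[X] x ↔ ∃ f : E[X], x = algebraMap E[X] (LL F E) f := by
  constructor
  · rintro ⟨P, hP, hx⟩
    have h1 : IsIntegral E[X] x := by
      refine ⟨P.map (ψ F E), hP.map _, ?_⟩
      rw [eval₂_map]
      exact hx
    obtain ⟨f, hf⟩ := IsIntegrallyClosed.isIntegral_iff.1 h1
    exact ⟨f, hf.symm⟩
  · rintro ⟨f, rfl⟩
    exact Q.alg_int f

theorem w_mul_cb (a₀ b₀ a₁ b₁ a₂ b₂ : RatFunc F) : Q.w * cb Q.w Q.p a₀ b₀ a₁ b₁ a₂ b₂ =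
    cb Q.w Q.p (-b₀) (a₀ - b₀) (-b₁) (a₁ - b₁) (-b₂) (a₂ - b₂) := by
  unfold cb
  simp only [map_sub, map_neg]
  linear_combination (algebraMap (RatFunc F) (LL F E) b₀ +
    algebraMap (RatFunc F) (LL F E) b₁ * Q.p + algebraMap (RatFunc F) (LL F E) b₂ * Q.p ^ 2) * Q.hw

theorem p_mul_cb (a₀ b₀ a₁ b₁ a₂ b₂ : RatFunc F) : Q.p * cb Q.w Q.p a₀ b₀ a₁ b₁ a₂ b₂ =
    cb Q.w Q.p (algebraMap F[X] (RatFunc F) X * a₂) (algebraMap F[X] (RatFunc F) X * b₂)
      a₀ b₀ a₁ b₁ := by
  have h := Q.hp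
  rw [IsScalarTower.algebraMap_apply F[X] (RatFunc F) (LL F E)] at h
  unfold cb
  simp only [map_mul]
  linear_combination (algebraMap (RatFunc F) (LL F E) a₂ +
    algebraMap (RatFunc F) (LL F E) b₂ * Q.w) * h

/-- The elements which are `F(X)`-combinations of the six basis elements. -/
def S : Submodule (RatFunc F) (LL F E) where
  carrier := {x | ∃ a₀ b₀ a₁ b₁ a₂ b₂ : RatFunc F, x = cb Q.w Q.p a₀ b₀ a₁ b₁ a₂ b₂}
  add_mem' := by
    rintro _ _ ⟨a₀, b₀, a₁, b₁, a₂, b₂, rfl⟩ ⟨c₀, d₀, c₁, d₁, c₂, d₂, rfl⟩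
    refine ⟨a₀ + c₀, b₀ + d₀, a₁ + c₁, b₁ + d₁, a₂ + c₂, b₂ + d₂, ?_⟩
    unfold cb
    simp only [map_add]
    ring
  zero_mem' := ⟨0, 0, 0, 0, 0, 0, by simp [cb]⟩
  smul_mem' := by
    rintro c _ ⟨a₀, b₀, a₁, b₁, a₂, b₂, rfl⟩
    refine ⟨c * a₀, c * b₀, c * a₁, c * b₁, c * a₂, c * b₂, ?_⟩
    unfold cb
    simp only [map_mul, Algebra.smul_def]
    ring

theorem adjoin_mul_mem (x : LL F E) (hx : x ∈ Algebra.adjoin (RatFunc F) {Q.w, Q.p}) :
    ∀ y ∈ Q.S, x * y ∈ Q.S := by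
  induction hx using Algebra.adjoin_induction with
  | mem x hx =>
    rintro _ ⟨a₀, b₀, a₁, b₁, a₂, b₂, rfl⟩
    rcases hx with rfl | rfl
    · exact ⟨_, _, _, _, _, _, Q.w_mul_cb _ _ _ _ _ _⟩
    · exact ⟨_, _, _, _, _, _, Q.p_mul_cb _ _ _ _ _ _⟩
  | algebraMap r =>
    intro y hy
    rw [← Algebra.smul_def]
    exact Q.S.smul_mem _ hy
  | add x y _ _ hx hy =>
    intro z hz
    rw [add_mul]
    exact Q.S.add_mem (hx z hz) (hy z hz)
  | mul x y _ _ hx hy =>
    intro z hz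
    rw [mul_assoc]
    exact hx _ (hy z hz)

theorem adjoin_le (x : LL F E) (hx : x ∈ Algebra.adjoin (RatFunc F) {Q.w, Q.p}) : x ∈ Q.S := by
  have := Q.adjoin_mul_mem x hx 1 ⟨1, 0, 0, 0, 0, 0, by simp [cb]⟩
  rwa [mul_one] at this

theorem alg_mem (f : E[X]) : algebraMap E[X] (LL F E) f ∈
    Algebra.adjoin (RatFunc F) {Q.w, Q.p} := by
  obtain ⟨a₀, b₀, a₁, b₁, a₂, b₂, h⟩ := Q.alg_eq f
  rw [h]
  unfold cb
  have hw : Q.w ∈ Algebra.adjoin (RatFunc F) {Q.w, Q.p} := Algebra.subset_adjoin (by simp)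
  have hp : Q.p ∈ Algebra.adjoin (RatFunc F) {Q.w, Q.p} := Algebra.subset_adjoin (by simp)
  have ha : ∀ a : RatFunc F, algebraMap (RatFunc F) (LL F E) a ∈
    Algebra.adjoin (RatFunc F) {Q.w, Q.p} := fun a => Subalgebra.algebraMap_mem _ a
  exact add_mem (add_mem (add_mem (ha _) (mul_mem (ha _) hw))
    (mul_mem (add_mem (ha _) (mul_mem (ha _) hw)) hp))
    (mul_mem (add_mem (ha _) (mul_mem (ha _) hw)) (pow_mem hp 2))

theorem span (x : LL F E) : x ∈ Q.S := by
  apply Q.adjoin_le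
  obtain ⟨f, g, hg, rfl⟩ := IsFractionRing.div_surjective (A := E[X]) x
  rw [div_eq_mul_inv]
  refine mul_mem (Q.alg_mem f) ?_
  have halg : IsAlgebraic (RatFunc F) (algebraMap E[X] (LL F E) g) := by
    have h1 : IsIntegral (RatFunc F) (algebraMap E[X] (LL F E) g) := (Q.alg_int g).tower_top
    exact h1.isAlgebraic
  exact Subalgebra.inv_mem_of_algebraic (A := Algebra.adjoin (RatFunc F) {Q.w, Q.p})
    (x := ⟨_, Q.alg_mem g⟩) halg

/-- The structure. -/
noncomputable def toS3 : S3 F[X] (RatFunc F) (LL F E) where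
  w := Q.w
  p := Q.p
  t := X
  s := Q.s
  τ := Q.τ
  B := Subalgebra.toSubmodule (integralClosure F[X] (LL F E))
  hw := Q.hw
  hp := Q.hp
  hp0 := by
    unfold p
    rw [Ne, map_eq_zero_iff _ (IsFractionRing.injective E[X] (LL F E))]
    exact X_ne_zero
  h3 := by
    have : (3 : F[X]) = C 3 := (map_ofNat C 3).symm
    rw [this]
    exact isUnit_C.2 (isUnit_iff_ne_zero.2 Q.h3)
  ht := not_isUnit_X
  hsw := by
    unfold w
    rw [s_apply, sE_C]
  hsp := by
    unfold p w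
    rw [s_apply, sE_X, map_mul]
  htw := by
    unfold w
    rw [τ_apply, τE_C, Q.hφ, C_pow, map_pow]
  htp := by
    unfold p
    rw [τ_apply, τE_X]
  hspan := Q.span
  hinj := IsFractionRing.injective F[X] (RatFunc F)
  hB := by
    intro x
    rw [Subalgebra.mem_toSubmodule, mem_integralClosure_iff, Q.int_iff]
    constructor
    · rintro ⟨f, rfl⟩
      exact Q.alg_eq f
    · rintro ⟨a₀, b₀, a₁, b₁, a₂, b₂, rfl⟩
      exact Q.cb_alg a₀ b₀ a₁ b₁ a₂ b₂

end Cst

end

end Pool.Agent.X274.Hopf
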