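import Pool.Agent.X274.HopfAbs

/-!
# Extensions with group `S₃` generated by a cube root of unity and a cube root: the order in `H_λ`
-/

set_option autoImplicit false
set_option linter.unusedSectionVars false
set_option linter.unusedSimpArgs false

open scoped TensorProduct

namespace Pool.Agent.X274.Hopf

namespace S3

variable {R K L : Type} [CommRing R] [Field K] [Field L] [Algebra R K] [Algebra K L] [Algebra R L]
  [IsScalarTower R K L]

variable (D : S3 R K L)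

theorem g_w (g : L ≃ₐ[K] L) : g D.w = D.w ∨ g D.w = D.w ^ 2 := by
  obtain ⟨x, rfl⟩ := D.hG g
  have := D.e_w x
  change D.e x D.w = D.w ∨ D.e x D.w = D.w ^ 2
  by_cases h : x.2 = 0
  · left; rw [this, if_pos h]
  · right; rw [this, if_neg h]

theorem g_p (g : L ≃ₐ[K] L) : ∃ i : ℕ, g D.p = D.w ^ i * D.p := by
  obtain ⟨x, rfl⟩ := D.hG g
  exact ⟨x.1.val, D.e_p x⟩

theorem w4 : (D.w ^ 2) ^ 2 = D.w := by linear_combination D.w * D.hw3

open Classical in
/-- The coefficients of the bad element. -/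
noncomputable def F (g : L ≃ₐ[K] L) : L := if g D.w = D.w then 0 else g D.p / D.p ^ 2

theorem F_conj (g h : L ≃ₐ[K] L) : D.F (g * h * g⁻¹) = g (D.F h) := by
  have hne := D.hwne
  have hp0 := D.hp0
  have hw0 := D.hw0
  by_cases hh : h D.w = D.w
  · have h1 : (g * h * g⁻¹) D.w = D.w := by
      rw [AlgEquiv.mul_apply, AlgEquiv.mul_apply]
      have key : g (g⁻¹ D.w) = D.w := by
        rw [← AlgEquiv.mul_apply, mul_inv_cancel, AlgEquiv.one_apply]
      have key' : h (g⁻¹ D.w) = g⁻¹ D.w := by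
        rcases D.g_w g⁻¹ with h2 | h2
        · rw [h2, hh]
        · rw [h2, map_pow, hh]
      rw [key', key]
    rw [F, F, if_pos hh, if_pos h1, map_zero]
  · have h2 := (D.g_w h).resolve_left hh
    have h1 : (g * h * g⁻¹) D.w ≠ D.w := by
      intro h3
      have h4 : h (g⁻¹ D.w) = g⁻¹ D.w := by
        have := congrArg (fun x => g⁻¹ x) h3
        simp only [AlgEquiv.mul_apply] at this
        rw [← AlgEquiv.mul_apply g⁻¹ g, inv_mul_cancel, AlgEquiv.one_apply] at this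
        exact this
      rcases D.g_w g⁻¹ with h5 | h5
      · rw [h5] at h4; exact hh h4
      · rw [h5, map_pow, h2, D.w4] at h4
        exact hne h4.symm
    rw [F, F, if_neg hh, if_neg h1, map_div₀, map_pow]
    obtain ⟨i, hi⟩ := D.g_p g
    obtain ⟨j, hj⟩ := D.g_p g⁻¹
    have h6 : (g D.w) ^ j * D.w ^ i = 1 := by
      have : D.p = g (g⁻¹ D.p) := by
        rw [← AlgEquiv.mul_apply, mul_inv_cancel, AlgEquiv.one_apply]
      rw [hj, map_mul, map_pow, hi, ← mul_assoc] at this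
      exact (mul_right_cancel₀ hp0 (by rw [one_mul]; exact this)).symm
    have h7 : (g * h * g⁻¹) D.p = (g D.w) ^ (2 * j) * g (h D.p) := by
      rw [AlgEquiv.mul_apply, AlgEquiv.mul_apply, hj, map_mul, map_mul, map_pow, map_pow, h2,
        map_pow, ← pow_mul]
    rw [h7, hi]
    have h8 : (g D.w) ^ (2 * j) * (D.w ^ i) ^ 2 = 1 := by
      rw [mul_comm 2 j, pow_mul, ← mul_pow, h6, one_pow]
    have h9 : D.w ^ i ≠ 0 := pow_ne_zero _ hw0
    rw [mul_pow, div_eq_div_iff (pow_ne_zero _ hp0) (mul_ne_zero (pow_ne_zero _ h9)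
      (pow_ne_zero _ hp0))]
    linear_combination g (h D.p) * D.p ^ 2 * h8

/-- The bad element. -/
noncomputable def bad : MonoidAlgebra L (L ≃ₐ[K] L) :=
  have := D.finite_G
  have := Fintype.ofFinite (L ≃ₐ[K] L)
  ∑ g : L ≃ₐ[K] L, MonoidAlgebra.single g (D.F g)

theorem bad_coeff (g : L ≃ₐ[K] L) : D.bad.coeff g = D.F g := by
  classical
  unfold bad
  rw [MonoidAlgebra.coeff_sum, Finsupp.finsetSum_apply]
  simp only [MonoidAlgebra.coeff_single]
  rw [Finset.sum_eq_single g]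
  · simp
  · intro b _ hb
    exact Finsupp.single_eq_of_ne hb.symm
  · simp

theorem actLam_eq (z : MonoidAlgebra L (L ≃ₐ[K] L)) (x : L) :
    actLam K L z x = z.coeff 1 * (1 : L ≃ₐ[K] L)⁻¹ x + z.coeff D.s * D.s⁻¹ x +
      z.coeff (D.s * D.s) * (D.s * D.s)⁻¹ x +
      z.coeff D.τ * D.τ⁻¹ x + z.coeff (D.s * D.τ) * (D.s * D.τ)⁻¹ x +
      z.coeff (D.s * D.s * D.τ) * (D.s * D.s * D.τ)⁻¹ x := by
  unfold actLam
  rw [D.sum_eq z.coeff (fun (g : L ≃ₐ[K] L) (c : L) => c * g⁻¹ x) (fun _ => zero_mul _)]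

theorem inv_τ : D.τ⁻¹ = D.τ := by
  rw [inv_eq_iff_mul_eq_one]
  apply D.ext_of
  · simp only [AlgEquiv.mul_apply, D.htw, map_pow, D.w4, AlgEquiv.one_apply]
  · simp only [AlgEquiv.mul_apply, D.htp, AlgEquiv.one_apply]

theorem inv_sτ : (D.s * D.τ)⁻¹ = D.s * D.τ := by
  rw [inv_eq_iff_mul_eq_one]
  apply D.ext_of
  · simp only [AlgEquiv.mul_apply, D.htw, map_pow, D.w4, AlgEquiv.one_apply, D.hsw]
  · simp only [AlgEquiv.mul_apply, D.htp, AlgEquiv.one_apply, D.hsp, map_mul, D.htw, map_pow,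
      D.hsw]
    linear_combination D.p * D.hw3

theorem inv_ssτ : (D.s * D.s * D.τ)⁻¹ = D.s * D.s * D.τ := by
  rw [inv_eq_iff_mul_eq_one]
  apply D.ext_of
  · simp only [AlgEquiv.mul_apply, D.htw, map_pow, D.w4, AlgEquiv.one_apply, D.hsw]
  · simp only [AlgEquiv.mul_apply, D.htp, AlgEquiv.one_apply, D.hsp, map_mul, D.htw, map_pow,
      D.hsw]
    linear_combination D.p * (D.w ^ 3 + 1) * D.hw3

theorem F_1 : D.F 1 = 0 := by simp [F]
theorem F_s : D.F D.s = 0 := by simp [F, D.hsw]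
theorem F_ss : D.F (D.s * D.s) = 0 := by simp [F, D.hsw]
theorem F_τ : D.F D.τ = D.p⁻¹ := by
  have := D.hp0
  rw [F, if_neg (by rw [D.htw]; exact D.hwne), D.htp]
  field_simp
theorem F_sτ : D.F (D.s * D.τ) = D.w * D.p⁻¹ := by
  have := D.hp0
  rw [F, if_neg (by rw [AlgEquiv.mul_apply, D.htw, map_pow, D.hsw]; exact D.hwne)]
  rw [AlgEquiv.mul_apply, D.htp, D.hsp]
  field_simp
theorem F_ssτ : D.F (D.s * D.s * D.τ) = D.w ^ 2 * D.p⁻¹ := by
  have := D.hp0
  have h : (D.s * D.s * D.τ) D.w = D.w ^ 2 := by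
    rw [AlgEquiv.mul_apply, AlgEquiv.mul_apply, D.htw, map_pow, map_pow, D.hsw, D.hsw]
  rw [F, if_neg (by rw [h]; exact D.hwne)]
  rw [AlgEquiv.mul_apply, AlgEquiv.mul_apply, D.htp, D.hsp, map_mul, D.hsp, D.hsw]
  field_simp

theorem bad_act (a₀ b₀ a₁ b₁ a₂ b₂ : K) : actLam K L D.bad (cb D.w D.p a₀ b₀ a₁ b₁ a₂ b₂) =
    cb D.w D.p 0 0 (3 * (a₂ - b₂)) (-(3 * b₂)) 0 0 := by
  have hq : D.p⁻¹ * D.p = 1 := inv_mul_cancel₀ D.hp0
  rw [D.actLam_eq]
  simp only [bad_coeff, F_1, F_s, F_ss, F_τ, F_sτ, F_ssτ, inv_τ, inv_sτ, inv_ssτ, zero_mul,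
    zero_add]
  simp only [AlgEquiv.mul_apply, τ_cb, s_cb]
  unfold cb
  simp only [map_sub, map_neg, map_zero, map_mul, map_ofNat]
  set A0 := algebraMap K L a₀
  set A1 := algebraMap K L a₁
  set A2 := algebraMap K L a₂
  set B0 := algebraMap K L b₀
  set B1 := algebraMap K L b₁
  set B2 := algebraMap K L b₂
  set w := D.w
  set p := D.p
  set q := D.p⁻¹
  have hw : w ^ 2 + w + 1 = 0 := D.hw
  linear_combination (q * ((A0 - B0) - B0 * w) + q * p * (A1 - B1) * (1 - w) +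
    q * p ^ 2 * (A2 * w + 2 * B2 - 2 * A2)) * hw + p * (3 * (A2 - B2) - 3 * B2 * w) * hq

theorem bad_mem : D.bad ∈ assocLam R K L D.B := by
  refine ⟨fun g h => ?_, fun x hx => ?_⟩
  · rw [bad_coeff, bad_coeff, F_conj]
  · obtain ⟨a₀, b₀, a₁, b₁, a₂, b₂, rfl⟩ := (D.hB _).1 hx
    rw [D.bad_act]
    exact (D.hB _).2 ⟨0, 0, 3 * (a₂ - b₂), -(3 * b₂), 0, 0, by
      simp only [map_neg, map_sub, map_mul, map_ofNat, map_zero]⟩

/-! ### Commutation with the Galois group -/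

include D in
theorem comm (z : MonoidAlgebra L (L ≃ₐ[K] L)) (hz : z ∈ Hlam K L) (g : L ≃ₐ[K] L) (x : L) :
    g (actLam K L z x) = actLam K L z (g x) := by
  have := D.finite_G
  have := Fintype.ofFinite (L ≃ₐ[K] L)
  unfold actLam
  rw [Finsupp.sum_fintype _ _ (fun _ => zero_mul _), Finsupp.sum_fintype _ _ (fun _ => zero_mul _),
    map_sum]
  rw [← (MulAut.conj g).toEquiv.sum_comp (fun h : L ≃ₐ[K] L => z.coeff h * h⁻¹ (g x))]
  refine Finset.sum_congr rfl fun h _ => ?_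
  change g (z.coeff h * h⁻¹ x) = z.coeff (g * h * g⁻¹) * (g * h * g⁻¹)⁻¹ (g x)
  rw [hz g h, map_mul]
  congr 1
  rw [mul_inv_rev, mul_inv_rev, inv_inv]
  simp only [AlgEquiv.mul_apply]
  rw [← AlgEquiv.mul_apply g⁻¹ g, inv_mul_cancel, AlgEquiv.one_apply]

/-- The functional `θ`. -/
noncomputable def θ : MonoidAlgebra L (L ≃ₐ[K] L) →ₗ[L] L where
  toFun z := z.coeff.sum fun g c => c * (D.w * g⁻¹ D.p - g⁻¹ (D.w * D.p))
  map_add' x y := by
    rw [MonoidAlgebra.coeff_add]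
    exact Finsupp.sum_add_index' (h := fun (g : L ≃ₐ[K] L) (c : L) =>
      c * (D.w * g⁻¹ D.p - g⁻¹ (D.w * D.p))) (fun _ => zero_mul _) (fun _ _ _ => add_mul _ _ _)
  map_smul' c x := by
    rw [MonoidAlgebra.coeff_smul, Finsupp.sum_smul_index' (h := fun (g : L ≃ₐ[K] L) (c : L) =>
      c * (D.w * g⁻¹ D.p - g⁻¹ (D.w * D.p))) (fun _ => zero_mul _), RingHom.id_apply,
      Finsupp.smul_sum]
    refine Finsupp.sum_congr fun g _ => ?_
    rw [smul_mul_assoc]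

theorem θ_single (g : L ≃ₐ[K] L) (c : L) : D.θ (MonoidAlgebra.single g c) =
    c * (D.w * g⁻¹ D.p - g⁻¹ (D.w * D.p)) := by
  change ((MonoidAlgebra.single g c).coeff.sum fun (g : L ≃ₐ[K] L) (c : L) =>
    c * (D.w * g⁻¹ D.p - g⁻¹ (D.w * D.p))) = _
  rw [MonoidAlgebra.coeff_single]
  exact Finsupp.sum_single_index (h := fun (g : L ≃ₐ[K] L) (c : L) =>
      c * (D.w * g⁻¹ D.p - g⁻¹ (D.w * D.p))) (zero_mul _)

theorem θ_eq (z : MonoidAlgebra L (L ≃ₐ[K] L)) :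
    D.θ z = D.w * actLam K L z D.p - actLam K L z (D.w * D.p) := by
  change (z.coeff.sum fun (g : L ≃ₐ[K] L) (c : L) => c * (D.w * g⁻¹ D.p - g⁻¹ (D.w * D.p))) = _
  unfold actLam Finsupp.sum
  rw [Finset.mul_sum, ← Finset.sum_sub_distrib]
  refine Finset.sum_congr rfl fun g _ => ?_
  ring

theorem p_mem : D.p ∈ D.B := by
  refine (D.hB _).2 ⟨0, 0, 1, 0, 0, 0, ?_⟩
  simp [cb]

theorem θ_mem (z : MonoidAlgebra L (L ≃ₐ[K] L)) (hz : z ∈ assocLam R K L D.B) :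
    ∃ a : R, D.θ z = algebraMap R L a * ((1 + 2 * D.w) * D.p ^ 2) := by
  obtain ⟨hz1, hz2⟩ := hz
  have hv := hz2 _ D.p_mem
  obtain ⟨a₀, b₀, a₁, b₁, a₂, b₂, h⟩ := (D.hB _).1 hv
  set A0 := algebraMap R K a₀ with hA0
  set A1 := algebraMap R K a₁
  set A2 := algebraMap R K a₂
  set B0 := algebraMap R K b₀
  set B1 := algebraMap R K b₁
  set B2 := algebraMap R K b₂
  -- `τ v = v`
  have h1 : D.τ (actLam K L z D.p) = actLam K L z D.p := by
    rw [D.comm z hz1, D.htp]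
  rw [h, D.τ_cb] at h1
  obtain ⟨e0, -, e1, -, e2, -⟩ := D.cb_inj h1
  have e0' : B0 = 0 := by linear_combination -e0
  have e1' : B1 = 0 := by linear_combination -e1
  have e2' : B2 = 0 := by linear_combination -e2
  rw [e0', e1', e2'] at h
  -- `v + s v + s s v = 0`
  have h2 : D.s (actLam K L z D.p) = actLam K L z (D.w * D.p) := by
    rw [D.comm z hz1, D.hsp]
  have h3 : D.s (D.s (actLam K L z D.p)) = actLam K L z (D.w ^ 2 * D.p) := by
    rw [h2, D.comm z hz1, map_mul, D.hsw, D.hsp]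
    congr 1
    ring
  have h4 : actLam K L z D.p + actLam K L z (D.w * D.p) + actLam K L z (D.w ^ 2 * D.p) = 0 := by
    unfold actLam Finsupp.sum
    rw [← Finset.sum_add_distrib, ← Finset.sum_add_distrib]
    refine Finset.sum_eq_zero fun g _ => ?_
    rw [← mul_add, ← mul_add, ← map_add, ← map_add]
    have : D.p + D.w * D.p + D.w ^ 2 * D.p = 0 := by linear_combination D.p * D.hw
    rw [this, map_zero, mul_zero]
  rw [← h3, ← h2, h, D.s_cb, D.s_cb] at h4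
  have h5 : cb D.w D.p (3 * A0) 0 0 0 0 0 = 0 := by
    rw [← h4]
    unfold cb
    simp only [map_sub, map_neg, map_zero, map_mul, map_ofNat]
    ring
  have h6 := (D.hli _ _ _ _ _ _ h5).1
  have h7 : A0 = 0 := by
    obtain ⟨u, hu⟩ := D.h3
    have h3K : (3 : K) * algebraMap R K (↑u⁻¹ : R) = 1 := by
      have : (3 : K) = algebraMap R K (3 : R) := (map_ofNat _ 3).symm
      rw [this, ← map_mul, ← hu, Units.mul_inv, map_one]
    linear_combination algebraMap R K (↑u⁻¹ : R) * h6 - A0 * h3K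
  rw [h7] at h
  refine ⟨a₂, ?_⟩
  rw [D.θ_eq, ← h2, h, D.s_cb]
  unfold cb
  simp only [map_sub, map_neg, map_zero]
  rw [IsScalarTower.algebraMap_apply R K L]
  ring

/-- The functional `Θ` on the tensor square. -/
noncomputable def Θ : MonoidAlgebra L (L ≃ₐ[K] L) ⊗[L] MonoidAlgebra L (L ≃ₐ[K] L) →ₗ[L] L :=
  LinearMap.mul' L L ∘ₗ TensorProduct.map D.θ D.θ

theorem Θ_mem (z : MonoidAlgebra L (L ≃ₐ[K] L) ⊗[L] MonoidAlgebra L (L ≃ₐ[K] L))
    (hz : z ∈ Submodule.span R {z : MonoidAlgebra L (L ≃ₐ[K] L) ⊗[L] MonoidAlgebra L (L ≃ₐ[K] L) |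
      ∃ x ∈ assocLam R K L D.B, ∃ y ∈ assocLam R K L D.B, z = x ⊗ₜ[L] y}) :
    ∃ a : R, D.Θ z = algebraMap R L a * (-3 * (algebraMap R L D.t * D.p)) := by
  induction hz using Submodule.span_induction with
  | mem x hx =>
    obtain ⟨x, hx, y, hy, rfl⟩ := hx
    obtain ⟨a, ha⟩ := D.θ_mem x hx
    obtain ⟨b, hb⟩ := D.θ_mem y hy
    refine ⟨a * b, ?_⟩
    unfold Θ
    rw [LinearMap.comp_apply, TensorProduct.map_tmul, LinearMap.mul'_apply, ha, hb, ← D.hp,
      map_mul]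
    linear_combination (algebraMap R L a * algebraMap R L b * D.p ^ 4) * 4 * D.hw
  | zero => exact ⟨0, by simp⟩
  | add x y _ _ hx hy =>
    obtain ⟨a, ha⟩ := hx
    obtain ⟨b, hb⟩ := hy
    exact ⟨a + b, by rw [map_add, ha, hb, map_add]; ring⟩
  | smul r x _ hx =>
    obtain ⟨a, ha⟩ := hx
    refine ⟨r * a, ?_⟩
    have : r • x = (algebraMap R L r) • x := (algebraMap_smul L r x).symm
    rw [this, map_smul, ha, map_mul, smul_eq_mul]
    ring

theorem Θ_comul_single (g : L ≃ₐ[K] L) (c : L) :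
    D.Θ (Coalgebra.comul (R := L) (MonoidAlgebra.single g c)) =
      c * (D.w * g⁻¹ D.p - g⁻¹ (D.w * D.p)) ^ 2 := by
  rw [MonoidAlgebra.comul_single]
  simp only [CommSemiring.comul_apply, TensorProduct.map_tmul]
  unfold Θ
  rw [LinearMap.comp_apply, TensorProduct.map_tmul, LinearMap.mul'_apply]
  simp only [MonoidAlgebra.lsingle_apply]
  rw [D.θ_single, D.θ_single]
  ring

theorem Θ_comul (z : MonoidAlgebra L (L ≃ₐ[K] L)) : D.Θ (Coalgebra.comul (R := L) z) =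
    z.coeff D.τ * (-3 * D.p ^ 2) + z.coeff (D.s * D.τ) * (-3 * (D.w * D.p) ^ 2) +
      z.coeff (D.s * D.s * D.τ) * (-3 * (D.w ^ 2 * D.p) ^ 2) := by
  have := D.finite_G
  have := Fintype.ofFinite (L ≃ₐ[K] L)
  have h1 : D.Θ (Coalgebra.comul (R := L) z) =
      z.coeff.sum fun g c => c * (D.w * g⁻¹ D.p - g⁻¹ (D.w * D.p)) ^ 2 := by
    conv_lhs => rw [sum_single z]
    rw [map_sum, map_sum, Finsupp.sum_fintype _ _ (fun _ => zero_mul _)]
    refine Finset.sum_congr rfl fun g _ => ?_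
    rw [Θ_comul_single]
  rw [h1, D.sum_eq z.coeff (fun (g : L ≃ₐ[K] L) (c : L) =>
    c * (D.w * g⁻¹ D.p - g⁻¹ (D.w * D.p)) ^ 2) (fun _ => zero_mul _)]
  have hs : ∀ g : L ≃ₐ[K] L, g D.w = D.w → D.w * g⁻¹ D.p - g⁻¹ (D.w * D.p) = 0 := by
    intro g hg
    have : g⁻¹ D.w = D.w := by
      conv_lhs => rw [← hg]
      rw [← AlgEquiv.mul_apply, inv_mul_cancel, AlgEquiv.one_apply]
    rw [map_mul, this, sub_self]
  rw [hs 1 (by simp), hs D.s D.hsw, hs (D.s * D.s) (by simp [D.hsw]), inv_τ, inv_sτ, inv_ssτ]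
  simp only [AlgEquiv.mul_apply, map_mul, map_pow, D.hsp, D.htp, D.hsw, D.htw]
  linear_combination ((z.coeff D.τ + z.coeff (D.s * D.τ) * D.w ^ 2 +
    z.coeff (D.s * D.s * D.τ) * D.w ^ 4) * D.p ^ 2 * (D.w ^ 2 - 3 * D.w + 3)) * D.hw

theorem bad_comul : Coalgebra.comul (R := L) D.bad ∉
    Submodule.span R {z : MonoidAlgebra L (L ≃ₐ[K] L) ⊗[L] MonoidAlgebra L (L ≃ₐ[K] L) |
      ∃ x ∈ assocLam R K L D.B, ∃ y ∈ assocLam R K L D.B, z = x ⊗ₜ[L] y} := by
  intro h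
  obtain ⟨a, ha⟩ := D.Θ_mem _ h
  rw [D.Θ_comul] at ha
  simp only [bad_coeff, F_τ, F_sτ, F_ssτ] at ha
  have hq : D.p⁻¹ * D.p = 1 := inv_mul_cancel₀ D.hp0
  have h1 : (-3 * D.p) * (3 : L) = (-3 * D.p) * (algebraMap R L a * algebraMap R L D.t) := by
    linear_combination ha + 3 * D.p * (1 + D.w ^ 3 + D.w ^ 6) * hq +
      3 * D.p * (D.w ^ 3 + 2) * D.hw3
  have h2 : (3 : L) = algebraMap R L a * algebraMap R L D.t :=
    mul_left_cancel₀ (mul_ne_zero (neg_ne_zero.2 D.h3L) D.hp0) h1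
  have h3 : (3 : R) = a * D.t := by
    apply D.hinj
    apply (algebraMap K L).injective
    rw [← IsScalarTower.algebraMap_apply, ← IsScalarTower.algebraMap_apply, map_mul, map_ofNat]
    exact h2
  apply D.ht
  have := D.h3
  rw [h3] at this
  exact isUnit_of_mul_isUnit_right this

theorem not_hopfOrder : ¬ IsHopfOrder R K (Hlam K L) (assocLam R K L D.B) :=
  fun h => D.bad_comul (h.comul_mem _ D.bad_mem)

theorem not_comm : D.s * D.τ ≠ D.τ * D.s := by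
  intro h
  have h1 := congrArg (fun g : L ≃ₐ[K] L => g D.p) h
  simp only [AlgEquiv.mul_apply, D.htp, D.hsp, map_mul, D.htw] at h1
  exact D.hwne (mul_right_cancel₀ D.hp0 h1).symm

end S3

end Pool.Agent.X274.Hopf
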